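import Pool.Agent.helper6.EV.Spec

set_option autoImplicit false

namespace Pool.Agent.EV

open N1f72dd46 Filter MeasureTheory Complex Metric Pool.Agent.helper6.LD

theorem TL_re (t : ℝ) : (s4 t).re = 4 := by
  unfold s4; simp

theorem TL_im (t : ℝ) : (s4 t).im = t := by
  unfold s4; simp

theorem TL_norm_ge (t : ℝ) (_ht : 8 ≤ t) : t ≤ ‖s4 t‖ := by
  have h1 := Complex.abs_im_le_norm (s4 t)
  rw [TL_im] at h1
  exact (le_abs_self t).trans h1

theorem TL_norm_le (t : ℝ) (ht : 8 ≤ t) : ‖s4 t‖ ≤ 2 * t := by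
  have h1 : ‖s4 t‖ ≤ 4 + t := by
    unfold s4
    refine (norm_add_le _ _).trans ?_
    rw [norm_mul, Complex.norm_I, mul_one, Complex.norm_real, Complex.norm_real,
      Real.norm_eq_abs, Real.norm_eq_abs, abs_of_nonneg (by linarith : (0 : ℝ) ≤ t)]
    norm_num
  linarith

theorem TL_ne (t : ℝ) (ht : 8 ≤ t) : s4 t ≠ 0 := by
  intro h
  have := TL_norm_ge t ht
  rw [h, norm_zero] at this
  linarith

/-- `W^(m-i) ≤ 4^i W^m` -/
theorem TL_pow (W : ℝ) (hW : 1 / 4 ≤ W) (m i : ℕ) (hi : i ≤ m) : W ^ (m - i) ≤ 4 ^ i * W ^ m := by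
  have h0 : 0 ≤ W := by linarith
  have h1 : (1 : ℝ) ≤ (4 * W) ^ i := one_le_pow₀ (by linarith)
  calc W ^ (m - i) = W ^ (m - i) * 1 := (mul_one _).symm
    _ ≤ W ^ (m - i) * (4 * W) ^ i := mul_le_mul_of_nonneg_left h1 (pow_nonneg h0 _)
    _ = 4 ^ i * (W ^ (m - i) * W ^ i) := by rw [mul_pow]; ring
    _ = 4 ^ i * W ^ m := by rw [← pow_add, Nat.sub_add_cancel hi]

/-- the normalised integrals -/
noncomputable def TL_b (t : ℝ) (m : ℕ) : ℂ := Jt (s4 t) m 0 / (m.factorial : ℂ)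

theorem TL_b_eq (JB : JB_stmt) (t : ℝ) (m : ℕ) :
    TL_b t m = ∑ i ∈ Finset.range (m + 1), ((s4 t) ^ (i + 1))⁻¹ * Bp (s4 t) (m - i) := by
  unfold TL_b
  rw [JB (s4 t) m (TL_re t)]
  have h : (m.factorial : ℂ) ≠ 0 := by exact_mod_cast m.factorial_ne_zero
  rw [mul_div_assoc, mul_div_cancel₀ _ h]

/-- one term -/
theorem TL_term (C1 t W : ℝ) (k m i : ℕ) (hC1 : 0 < C1) (ht : 8 ≤ t) (hW : 1 / 4 ≤ W)
    (hm : m ≤ k) (hi : i ≤ m)
    (hB : ∀ m ≤ k, ‖Bp (s4 t) m‖ ≤ C1 * (m + 1) ^ 2 * Real.log t * W ^ m) :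
    ‖((s4 t) ^ (i + 1))⁻¹ * Bp (s4 t) (m - i)‖ ≤
      C1 * (k + 1) ^ 2 * Real.log t * W ^ m * t⁻¹ * (1 / 2) ^ i := by
  have ht0 : 0 < t := by linarith
  have hW0 : 0 ≤ W := by linarith
  have hlog : 0 ≤ Real.log t := Real.log_nonneg (by linarith)
  have h1 : ‖((s4 t) ^ (i + 1))⁻¹‖ ≤ t⁻¹ * (1 / 8) ^ i := by
    rw [norm_inv, norm_pow]
    have h2 : t * 8 ^ i ≤ ‖s4 t‖ ^ (i + 1) := by
      rw [pow_succ, mul_comm]
      have h3 := TL_norm_ge t ht
      have h4 : (8 : ℝ) ^ i ≤ ‖s4 t‖ ^ i := pow_le_pow_left₀ (by norm_num) (by linarith) _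
      exact mul_le_mul h4 h3 ht0.le (by positivity)
    calc (‖s4 t‖ ^ (i + 1))⁻¹ ≤ (t * 8 ^ i)⁻¹ := inv_anti₀ (by positivity) h2
      _ = t⁻¹ * (1 / 8) ^ i := by rw [mul_inv, one_div, inv_pow]
  have h5 := hB (m - i) (by omega)
  have h6 : (((m - i : ℕ) : ℝ) + 1) ^ 2 ≤ ((k : ℝ) + 1) ^ 2 := by
    have : ((m - i : ℕ) : ℝ) ≤ k := by exact_mod_cast (by omega : m - i ≤ k)
    exact pow_le_pow_left₀ (by positivity) (by linarith) _
  have h7 := TL_pow W hW m i hi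
  have hB2 : ‖Bp (s4 t) (m - i)‖ ≤ C1 * (k + 1) ^ 2 * Real.log t * (4 ^ i * W ^ m) := by
    refine h5.trans ?_
    gcongr
  rw [norm_mul]
  calc ‖((s4 t) ^ (i + 1))⁻¹‖ * ‖Bp (s4 t) (m - i)‖
      ≤ (t⁻¹ * (1 / 8) ^ i) * (C1 * (k + 1) ^ 2 * Real.log t * (4 ^ i * W ^ m)) := by gcongr
    _ = C1 * (k + 1) ^ 2 * Real.log t * W ^ m * t⁻¹ * ((1 / 8) ^ i * 4 ^ i) := by ring
    _ = C1 * (k + 1) ^ 2 * Real.log t * W ^ m * t⁻¹ * (1 / 2) ^ i := by
        rw [← mul_pow]; norm_num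

theorem TL_bound (JB : JB_stmt) (C1 t W : ℝ) (k m : ℕ) (hC1 : 0 < C1) (ht : 8 ≤ t)
    (hW : 1 / 4 ≤ W) (hm : m ≤ k)
    (hB : ∀ m ≤ k, ‖Bp (s4 t) m‖ ≤ C1 * (m + 1) ^ 2 * Real.log t * W ^ m) :
    ‖TL_b t m‖ ≤ 2 * (C1 * (k + 1) ^ 2 * Real.log t * t⁻¹) * W ^ m := by
  have ht0 : 0 < t := by linarith
  have hW0 : 0 ≤ W := by linarith
  have hlog : 0 ≤ Real.log t := Real.log_nonneg (by linarith)
  rw [TL_b_eq JB]
  calc ‖∑ i ∈ Finset.range (m + 1), ((s4 t) ^ (i + 1))⁻¹ * Bp (s4 t) (m - i)‖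
      ≤ ∑ i ∈ Finset.range (m + 1), ‖((s4 t) ^ (i + 1))⁻¹ * Bp (s4 t) (m - i)‖ :=
        norm_sum_le _ _
    _ ≤ ∑ i ∈ Finset.range (m + 1),
        C1 * (k + 1) ^ 2 * Real.log t * W ^ m * t⁻¹ * (1 / 2) ^ i := by
        refine Finset.sum_le_sum fun i hi => ?_
        exact TL_term C1 t W k m i hC1 ht hW hm (by rw [Finset.mem_range] at hi; omega) hB
    _ = C1 * (k + 1) ^ 2 * Real.log t * W ^ m * t⁻¹ *
        ∑ i ∈ Finset.range (m + 1), (1 / 2 : ℝ) ^ i := by rw [Finset.mul_sum]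
    _ ≤ C1 * (k + 1) ^ 2 * Real.log t * W ^ m * t⁻¹ * 2 := by
        apply mul_le_mul_of_nonneg_left (sum_geometric_two_le _)
        positivity
    _ = _ := by ring

theorem TL_lower (JB : JB_stmt) (C1 t W : ℝ) (k : ℕ) (hC1 : 0 < C1) (ht : 8 ≤ t)
    (hW : 1 / 4 ≤ W)
    (hB : ∀ m ≤ k, ‖Bp (s4 t) m‖ ≤ C1 * (m + 1) ^ 2 * Real.log t * W ^ m) :
    ‖Bp (s4 t) k‖ / (2 * t) - 8 * (C1 * (k + 1) ^ 2 * Real.log t) * W ^ k / t ^ 2 ≤
      ‖TL_b t k‖ := by
  have ht0 : 0 < t := by linarith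
  have hW0 : 0 ≤ W := by linarith
  have hlog : 0 ≤ Real.log t := Real.log_nonneg (by linarith)
  have hs := TL_norm_ge t ht
  have e : TL_b t k = (∑ i ∈ Finset.range k, ((s4 t) ^ (i + 1 + 1))⁻¹ * Bp (s4 t) (k - (i + 1))) +
      ((s4 t) ^ (0 + 1))⁻¹ * Bp (s4 t) (k - 0) := by
    rw [TL_b_eq JB, Finset.sum_range_succ']
  set r := ∑ i ∈ Finset.range k, ((s4 t) ^ (i + 1 + 1))⁻¹ * Bp (s4 t) (k - (i + 1)) with hr
  have h1 : ‖Bp (s4 t) k‖ / (2 * t) ≤ ‖((s4 t) ^ (0 + 1))⁻¹ * Bp (s4 t) (k - 0)‖ := by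
    rw [zero_add, pow_one, Nat.sub_zero, norm_mul, norm_inv, mul_comm (‖s4 t‖⁻¹),
      ← div_eq_mul_inv]
    exact div_le_div_of_nonneg_left (norm_nonneg _) (by linarith) (TL_norm_le t ht)
  have h2 : ‖r‖ ≤ 8 * (C1 * (k + 1) ^ 2 * Real.log t) * W ^ k / t ^ 2 := by
    calc ‖r‖ ≤ ∑ i ∈ Finset.range k, ‖((s4 t) ^ (i + 1 + 1))⁻¹ * Bp (s4 t) (k - (i + 1))‖ :=
          norm_sum_le _ _
      _ ≤ ∑ i ∈ Finset.range k,
          (4 * (C1 * (k + 1) ^ 2 * Real.log t) * W ^ k / t ^ 2) * (1 / 2) ^ i := by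
          refine Finset.sum_le_sum fun i hi => ?_
          rw [Finset.mem_range] at hi
          rw [norm_mul]
          have h1 : ‖((s4 t) ^ (i + 1 + 1))⁻¹‖ ≤ (t ^ 2)⁻¹ * (1 / 8) ^ i := by
            rw [norm_inv, norm_pow]
            have h2 : t ^ 2 * 8 ^ i ≤ ‖s4 t‖ ^ (i + 1 + 1) := by
              have e : ‖s4 t‖ ^ (i + 1 + 1) = ‖s4 t‖ ^ 2 * ‖s4 t‖ ^ i := by ring
              rw [e]
              exact mul_le_mul (pow_le_pow_left₀ ht0.le hs _)
                (pow_le_pow_left₀ (by norm_num) (by linarith) _) (by positivity) (by positivity)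
            calc (‖s4 t‖ ^ (i + 1 + 1))⁻¹ ≤ (t ^ 2 * 8 ^ i)⁻¹ := inv_anti₀ (by positivity) h2
              _ = (t ^ 2)⁻¹ * (1 / 8) ^ i := by rw [mul_inv, one_div, inv_pow]
          have h5 := hB (k - (i + 1)) (by omega)
          have h6 : (((k - (i + 1) : ℕ) : ℝ) + 1) ^ 2 ≤ ((k : ℝ) + 1) ^ 2 := by
            have : ((k - (i + 1) : ℕ) : ℝ) ≤ k := by exact_mod_cast (by omega : k - (i + 1) ≤ k)
            exact pow_le_pow_left₀ (by positivity) (by linarith) _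
          have h7 := TL_pow W hW k (i + 1) (by omega)
          have hB2 : ‖Bp (s4 t) (k - (i + 1))‖ ≤
              C1 * (k + 1) ^ 2 * Real.log t * (4 ^ (i + 1) * W ^ k) := by
            refine h5.trans ?_
            gcongr
          calc ‖((s4 t) ^ (i + 1 + 1))⁻¹‖ * ‖Bp (s4 t) (k - (i + 1))‖
              ≤ ((t ^ 2)⁻¹ * (1 / 8) ^ i) *
                (C1 * (k + 1) ^ 2 * Real.log t * (4 ^ (i + 1) * W ^ k)) := by gcongr
            _ = (4 * (C1 * (k + 1) ^ 2 * Real.log t) * W ^ k / t ^ 2) *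
                ((1 / 8) ^ i * 4 ^ i) := by
                rw [pow_succ (4 : ℝ) i, div_eq_mul_inv]; ring
            _ = (4 * (C1 * (k + 1) ^ 2 * Real.log t) * W ^ k / t ^ 2) * (1 / 2) ^ i := by
                rw [← mul_pow]; norm_num
      _ = (4 * (C1 * (k + 1) ^ 2 * Real.log t) * W ^ k / t ^ 2) *
          ∑ i ∈ Finset.range k, (1 / 2 : ℝ) ^ i := by rw [Finset.mul_sum]
      _ ≤ (4 * (C1 * (k + 1) ^ 2 * Real.log t) * W ^ k / t ^ 2) * 2 := by
          apply mul_le_mul_of_nonneg_left (sum_geometric_two_le _)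
          positivity
      _ = _ := by ring
  have h3 : ‖((s4 t) ^ (0 + 1))⁻¹ * Bp (s4 t) (k - 0)‖ ≤ ‖TL_b t k‖ + ‖r‖ := by
    have e2 : ((s4 t) ^ (0 + 1))⁻¹ * Bp (s4 t) (k - 0) = TL_b t k - r := by rw [e]; ring
    rw [e2]
    exact norm_sub_le _ _
  linarith

/-- the shifted integral -/
theorem TL_shift (SH : SH_stmt) (t : ℝ) (k : ℕ) (a : ℝ) (ha : |a| ≤ 1 / 2) :
    Jt (s4 t) k a / (k.factorial : ℂ) = Complex.exp (s4 t * a) *
      ∑ j ∈ Finset.range (k + 1), ((-a) ^ j / j.factorial : ℝ) * TL_b t (k - j) := by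
  rw [SH (s4 t) k a (TL_re t) ha, mul_div_assoc]
  congr 1
  rw [Finset.sum_div]
  refine Finset.sum_congr rfl fun j hj => ?_
  rw [Finset.mem_range] at hj
  unfold TL_b
  have h1 : (k.choose j : ℂ) * (j.factorial : ℂ) * ((k - j).factorial : ℂ) = (k.factorial : ℂ) := by
    exact_mod_cast Nat.choose_mul_factorial_mul_factorial (by omega : j ≤ k)
  have h2 : (k.factorial : ℂ) ≠ 0 := by exact_mod_cast k.factorial_ne_zero
  have h3 : (j.factorial : ℂ) ≠ 0 := by exact_mod_cast j.factorial_ne_zero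
  have h4 : ((k - j).factorial : ℂ) ≠ 0 := by exact_mod_cast (k - j).factorial_ne_zero
  have h5 : (k.choose j : ℂ) ≠ 0 := by
    exact_mod_cast (Nat.choose_pos (by omega : j ≤ k)).ne'
  push_cast
  rw [← h1] at h2 ⊢
  field_simp

theorem TL_exp (t l : ℝ) (hl : l = Real.pi / t) (ht : 8 ≤ t) :
    Complex.exp (s4 t * (l : ℝ)) = -(Real.exp (4 * l) : ℝ) ∧
    Complex.exp (s4 t * ((-l : ℝ) : ℝ)) = -(Real.exp (-(4 * l)) : ℝ) := by
  have ht0 : (t : ℂ) ≠ 0 := by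
    have : t ≠ 0 := by linarith
    exact_mod_cast this
  constructor
  · have e : s4 t * (l : ℝ) = ((4 * l : ℝ) : ℂ) + Real.pi * I := by
      unfold s4
      rw [hl]
      push_cast
      field_simp
    rw [e, Complex.exp_add, Complex.exp_pi_mul_I, Complex.ofReal_exp]
    ring
  · have e : s4 t * ((-l : ℝ) : ℝ) = ((-(4 * l) : ℝ) : ℂ) + -(Real.pi * I) := by
      unfold s4
      rw [hl]
      push_cast
      field_simp
      ring
    rw [e, Complex.exp_add, Complex.exp_neg (Real.pi * I), Complex.exp_pi_mul_I,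
      Complex.ofReal_exp]
    norm_num

/-- the coefficients -/
noncomputable def TL_c (l : ℝ) (j : ℕ) : ℝ :=
  Real.exp (4 * l) * ((-l) ^ j / j.factorial) + Real.exp (-(4 * l)) * (l ^ j / j.factorial)

theorem TL_Tk (SH : SH_stmt) (t : ℝ) (k : ℕ) (ht : 8 ≤ t) :
    Tk t k = 2 * TL_b t k +
      ∑ j ∈ Finset.range (k + 1), ((TL_c (Real.pi / t) j : ℝ) : ℂ) * TL_b t (k - j) := by
  have hpi : Real.pi / t ≤ 1 / 2 := by
    rw [div_le_iff₀ (by linarith)]
    have := Real.pi_lt_four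
    linarith
  have hpi0 : 0 ≤ Real.pi / t := div_nonneg Real.pi_pos.le (by linarith)
  have h1 := TL_shift SH t k (Real.pi / t) (by rw [abs_of_nonneg hpi0]; exact hpi)
  have h2 := TL_shift SH t k (-(Real.pi / t)) (by rw [abs_neg, abs_of_nonneg hpi0]; exact hpi)
  obtain ⟨e1, e2⟩ := TL_exp t (Real.pi / t) rfl ht
  rw [e1] at h1
  rw [e2] at h2
  unfold Tk
  rw [sub_div, sub_div, mul_div_assoc, h1, h2]
  have h3 : Jt (s4 t) k 0 / (k.factorial : ℂ) = TL_b t k := rfl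
  rw [h3, neg_mul, sub_neg_eq_add, neg_mul, sub_neg_eq_add, add_assoc]
  congr 1
  rw [Finset.mul_sum, Finset.mul_sum, ← Finset.sum_add_distrib]
  refine Finset.sum_congr rfl fun j _ => ?_
  unfold TL_c
  rw [neg_neg]
  push_cast
  ring

theorem TL_c_bound (l : ℝ) (j : ℕ) (hl0 : 0 ≤ l) (hl : l ≤ 1 / 2) (hj : 1 ≤ j) :
    |TL_c l j| * 4 ^ j ≤ 128 * l ^ 2 * (2 ^ j / j.factorial) := by
  have hE : Real.exp (4 * l) ≤ 7.39 + 0.01 := by
    have h1 : Real.exp (4 * l) ≤ Real.exp 2 := Real.exp_le_exp.2 (by linarith)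
    have h2 : Real.exp 2 = Real.exp 1 * Real.exp 1 := by rw [← Real.exp_add]; norm_num
    have h3 := Real.exp_one_lt_d9
    have h4 := Real.exp_pos 1
    nlinarith
  have hE0 := Real.exp_pos (4 * l)
  have hE1 : Real.exp (-(4 * l)) ≤ 1 := Real.exp_le_one_iff.2 (by linarith)
  have hE2 := Real.exp_pos (-(4 * l))
  rcases Nat.lt_or_ge j 2 with h | h
  · have hj1 : j = 1 := by omega
    subst hj1
    have h1 : TL_c l 1 = -(l * (Real.exp (4 * l) - Real.exp (-(4 * l)))) := by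
      unfold TL_c
      rw [Nat.factorial_one]
      push_cast
      ring
    have h2 : Real.exp (4 * l) - Real.exp (-(4 * l)) ≤ 64 * l := by
      have h3 : Real.exp (4 * l) * (1 - 8 * l) ≤ Real.exp (-(4 * l)) := by
        have h4 : 1 - 8 * l ≤ Real.exp (-(8 * l)) := by
          linarith [Real.add_one_le_exp (-(8 * l))]
        have h5 : Real.exp (-(4 * l)) = Real.exp (4 * l) * Real.exp (-(8 * l)) := by
          rw [← Real.exp_add]; congr 1; ring
        rw [h5]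
        exact mul_le_mul_of_nonneg_left h4 hE0.le
      nlinarith
    have h3 : 0 ≤ Real.exp (4 * l) - Real.exp (-(4 * l)) := by
      have : Real.exp (-(4 * l)) ≤ Real.exp (4 * l) := Real.exp_le_exp.2 (by linarith)
      linarith
    rw [h1, abs_neg, abs_of_nonneg (mul_nonneg hl0 h3)]
    simp only [pow_one, Nat.factorial_one, Nat.cast_one, div_one]
    nlinarith
  · have h1 : |TL_c l j| ≤ 8.4 * (l ^ j / j.factorial) := by
      unfold TL_c
      refine (abs_add_le _ _).trans ?_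
      rw [abs_mul, abs_mul, abs_div, abs_div, abs_pow, abs_pow, abs_neg, abs_of_nonneg hl0,
        abs_of_pos hE0, abs_of_pos hE2, Nat.abs_cast, ← add_mul]
      apply mul_le_mul_of_nonneg_right _ (by positivity)
      linarith
    have h2 : l ^ j * 4 ^ j ≤ 4 * l ^ 2 * 2 ^ j := by
      obtain ⟨i, rfl⟩ := Nat.exists_eq_add_of_le h
      have h3 : (4 * l) ^ i ≤ 2 ^ i := pow_le_pow_left₀ (by positivity) (by linarith) _
      calc l ^ (2 + i) * 4 ^ (2 + i) = 16 * l ^ 2 * (4 * l) ^ i := by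
            rw [pow_add, pow_add, mul_pow]; ring
        _ ≤ 16 * l ^ 2 * 2 ^ i := mul_le_mul_of_nonneg_left h3 (by positivity)
        _ = 4 * l ^ 2 * 2 ^ (2 + i) := by rw [pow_add]; ring
    calc |TL_c l j| * 4 ^ j ≤ 8.4 * (l ^ j / j.factorial) * 4 ^ j := by gcongr
      _ = 8.4 * (l ^ j * 4 ^ j) / j.factorial := by ring
      _ ≤ 8.4 * (4 * l ^ 2 * 2 ^ j) / j.factorial := by gcongr
      _ ≤ 128 * l ^ 2 * (2 ^ j / j.factorial) := by
          rw [mul_div_assoc, mul_div_assoc]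
          have : 0 ≤ l ^ 2 * (2 ^ j / (j.factorial : ℝ)) := by positivity
          nlinarith

theorem TL (SH : SH_stmt) (JB : JB_stmt) : TL_stmt := by
  intro C1 hC1
  refine ⟨32 * C1 + 2 * C1 * 1024 * 16, by positivity, ?_⟩
  intro t W k ht hW hB
  have ht0 : 0 < t := by linarith
  have hW0 : 0 ≤ W := by linarith
  have hlog : 0 ≤ Real.log t := Real.log_nonneg (by linarith)
  set l := Real.pi / t with hl
  have hl2 : l ≤ 1 / 2 := by
    rw [hl, div_le_iff₀ ht0]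
    have := Real.pi_lt_four
    linarith
  have hl0 : 0 ≤ l := div_nonneg Real.pi_pos.le ht0.le
  set Q := 2 * (C1 * (k + 1) ^ 2 * Real.log t * t⁻¹) with hQ
  have hQ0 : 0 ≤ Q := by positivity
  have hb : ∀ m ≤ k, ‖TL_b t m‖ ≤ Q * W ^ m := fun m hm =>
    TL_bound JB C1 t W k m hC1 ht hW hm hB
  have e := TL_Tk SH t k ht
  rw [Finset.sum_range_succ'] at e
  set r := ∑ j ∈ Finset.range k, ((TL_c (Real.pi / t) (j + 1) : ℝ) : ℂ) * TL_b t (k - (j + 1))
    with hr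
  have h1 : ‖r‖ ≤ 1024 * l ^ 2 * Q * W ^ k := by
    calc ‖r‖ ≤ ∑ j ∈ Finset.range k,
          ‖((TL_c (Real.pi / t) (j + 1) : ℝ) : ℂ) * TL_b t (k - (j + 1))‖ := norm_sum_le _ _
      _ ≤ ∑ j ∈ Finset.range k, (128 * l ^ 2 * Q * W ^ k) * (2 ^ (j + 1) / (j + 1).factorial) := by
          refine Finset.sum_le_sum fun j hj => ?_
          rw [Finset.mem_range] at hj
          rw [norm_mul, Complex.norm_real, Real.norm_eq_abs]
          have h2 := hb (k - (j + 1)) (by omega)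
          have h3 := TL_pow W hW k (j + 1) (by omega)
          have h4 := TL_c_bound l (j + 1) hl0 hl2 (by omega)
          calc |TL_c l (j + 1)| * ‖TL_b t (k - (j + 1))‖
              ≤ |TL_c l (j + 1)| * (Q * (4 ^ (j + 1) * W ^ k)) := by
                apply mul_le_mul_of_nonneg_left _ (abs_nonneg _)
                exact h2.trans (mul_le_mul_of_nonneg_left h3 hQ0)
            _ = (|TL_c l (j + 1)| * 4 ^ (j + 1)) * (Q * W ^ k) := by ring
            _ ≤ (128 * l ^ 2 * (2 ^ (j + 1) / (j + 1).factorial)) * (Q * W ^ k) :=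
                mul_le_mul_of_nonneg_right h4 (by positivity)
            _ = _ := by ring
      _ = (128 * l ^ 2 * Q * W ^ k) * ∑ j ∈ Finset.range k, (2 : ℝ) ^ (j + 1) / (j + 1).factorial := by
          rw [Finset.mul_sum]
      _ ≤ (128 * l ^ 2 * Q * W ^ k) * 8 := by
          apply mul_le_mul_of_nonneg_left _ (by positivity)
          have h5 := Real.sum_le_exp_of_nonneg (x := 2) (by norm_num) (k + 1)
          rw [Finset.sum_range_succ'] at h5
          have h6 : Real.exp 2 ≤ 8 := by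
            have h2 : Real.exp 2 = Real.exp 1 * Real.exp 1 := by rw [← Real.exp_add]; norm_num
            have h3 := Real.exp_one_lt_d9
            have h4 := Real.exp_pos 1
            nlinarith
          simp only [pow_zero, Nat.factorial_zero, Nat.cast_one, div_one] at h5
          linarith
      _ = _ := by ring
  have h2 := TL_lower JB C1 t W k hC1 ht hW hB
  have hc0 : 2 ≤ TL_c l 0 := by
    unfold TL_c
    simp only [pow_zero, Nat.factorial_zero, Nat.cast_one, div_one, mul_one]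
    have h3 : Real.exp (-(4 * l)) * Real.exp (4 * l) = 1 := by rw [← Real.exp_add]; simp
    have h4 := Real.exp_pos (4 * l)
    have h5 := Real.exp_pos (-(4 * l))
    nlinarith [sq_nonneg (Real.exp (4 * l) - Real.exp (-(4 * l)))]
  have h3 : (2 + TL_c l 0) * ‖TL_b t k‖ - ‖r‖ ≤ ‖Tk t k‖ := by
    have e2 : ((2 + TL_c l 0 : ℝ) : ℂ) * TL_b t k = Tk t k - r := by
      rw [e, Nat.sub_zero]
      push_cast
      ring
    have h4 : ‖((2 + TL_c l 0 : ℝ) : ℂ) * TL_b t k‖ ≤ ‖Tk t k‖ + ‖r‖ := by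
      rw [e2]; exact norm_sub_le _ _
    rw [norm_mul, Complex.norm_real, Real.norm_eq_abs, abs_of_pos (by linarith)] at h4
    linarith
  have h4 : 4 * ‖TL_b t k‖ ≤ (2 + TL_c l 0) * ‖TL_b t k‖ :=
    mul_le_mul_of_nonneg_right (by linarith) (norm_nonneg _)
  have h5 : 1024 * l ^ 2 * Q * W ^ k ≤
      2 * C1 * 1024 * 16 * (k + 1) ^ 2 * Real.log t * W ^ k / t ^ 2 := by
    have h6 : l ^ 2 ≤ 16 / t ^ 2 := by
      rw [hl, div_pow]
      apply div_le_div_of_nonneg_right _ (by positivity)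
      have := Real.pi_lt_four
      have := Real.pi_pos
      nlinarith
    have h7 : Q ≤ 2 * C1 * (k + 1) ^ 2 * Real.log t := by
      have h8 : t⁻¹ ≤ 1 := inv_le_one_of_one_le₀ (by linarith)
      have h9 : 0 ≤ C1 * (k + 1) ^ 2 * Real.log t := by positivity
      rw [hQ]
      nlinarith
    calc 1024 * l ^ 2 * Q * W ^ k ≤ 1024 * (16 / t ^ 2) * (2 * C1 * (k + 1) ^ 2 * Real.log t) * W ^ k := by
          gcongr
      _ = _ := by ring
  have e3 : 4 * (‖Bp (s4 t) k‖ / (2 * t)) = 2 * ‖Bp (s4 t) k‖ / t := by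
    field_simp
    ring
  have e4 : (32 * C1 + 2 * C1 * 1024 * 16) * (k + 1) ^ 2 * Real.log t * W ^ k / t ^ 2 =
      4 * (8 * (C1 * (k + 1) ^ 2 * Real.log t) * W ^ k / t ^ 2) +
      2 * C1 * 1024 * 16 * (k + 1) ^ 2 * Real.log t * W ^ k / t ^ 2 := by ring
  rw [e4]
  linarith

end Pool.Agent.EV
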